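import Mathlib
import Pool.Agent.W775.SR.Upper
import Pool.Agent.W775.SR.Lower

set_option autoImplicit false
set_option linter.unusedVariables false

/-!
# The stable rank of the Nevanlinna class is 2
-/

namespace Pool.Agent.Results.MP_6e0919_an.StableRankTwo

open Metric Real Set
open Pool.Agent.W775.SR (NV)

/-- The Nevanlinna class of the unit disc: functions on the disc which are restrictions of
functions `F` holomorphic on the disc, for which the means of `log⁺ |F|` over the circles of radius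
`r`, `0 < r < 1`, are bounded. It is a subalgebra of the algebra of all functions on the disc, with
the pointwise operations. -/
def Nevanlinna : Subalgebra ℂ (ball (0 : ℂ) 1 → ℂ) where
  carrier := {f | ∃ F : ℂ → ℂ, DifferentiableOn ℂ F (ball (0 : ℂ) 1) ∧
    (∀ z : ball (0 : ℂ) 1, F z = f z) ∧
    ∃ M : ℝ, ∀ r : ℝ, 0 < r → r < 1 → circleAverage (fun z => log⁺ ‖F z‖) 0 r ≤ M}
  mul_mem' := by
    rintro f g ⟨F, hF, hF', M, hM⟩ ⟨G, hG, hG', N, hN⟩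
    have h1 : NV F := ⟨hF, M, fun r hr => hM r hr.1 hr.2⟩
    have h2 : NV G := ⟨hG, N, fun r hr => hN r hr.1 hr.2⟩
    obtain ⟨h3, K, hK⟩ := h1.mul h2
    exact ⟨_, h3, fun z => by rw [hF', hG']; rfl, K, fun r h0 h1 => hK r ⟨h0, h1⟩⟩
  add_mem' := by
    rintro f g ⟨F, hF, hF', M, hM⟩ ⟨G, hG, hG', N, hN⟩
    have h1 : NV F := ⟨hF, M, fun r hr => hM r hr.1 hr.2⟩
    have h2 : NV G := ⟨hG, N, fun r hr => hN r hr.1 hr.2⟩
    obtain ⟨h3, K, hK⟩ := h1.add h2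
    exact ⟨_, h3, fun z => by rw [hF', hG']; rfl, K, fun r h0 h1 => hK r ⟨h0, h1⟩⟩
  algebraMap_mem' := by
    intro c
    obtain ⟨h3, K, hK⟩ := NV.const c
    exact ⟨_, h3, fun z => rfl, K, fun r h0 h1 => hK r ⟨h0, h1⟩⟩

/-- A tuple is unimodular if the ideal it generates is the whole ring. -/
def Unimodular {A : Type*} [CommRing A] {n : ℕ} (f : Fin n → A) : Prop :=
  Ideal.span (range f) = ⊤

/-- An `(n+1)`-tuple `(f₀, …, fₙ)` is reducible if there are `h₀, …, hₙ₋₁` such that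
`(f₀ + h₀ fₙ, …, fₙ₋₁ + hₙ₋₁ fₙ)` is unimodular. -/
def Reducible {A : Type*} [CommRing A] {n : ℕ} (f : Fin (n + 1) → A) : Prop :=
  ∃ h : Fin n → A, Unimodular fun i : Fin n => f i.castSucc + h i * f (Fin.last n)

theorem unimodular_iff {A : Type*} [CommRing A] {n : ℕ} (f : Fin n → A) :
    Unimodular f ↔ ∃ g : Fin n → A, ∑ i, g i * f i = 1 := by
  unfold Unimodular
  rw [Ideal.eq_top_iff_one, Ideal.mem_span_range_iff_exists_fun]

theorem exists_ext (f : Nevanlinna) :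
    ∃ F : ℂ → ℂ, NV F ∧ ∀ z (hz : z ∈ ball (0 : ℂ) 1), (f : ball (0 : ℂ) 1 → ℂ) ⟨z, hz⟩ = F z := by
  obtain ⟨F, hF, hF', M, hM⟩ := f.2
  exact ⟨F, ⟨hF, M, fun r hr => hM r hr.1 hr.2⟩, fun z hz => (hF' ⟨z, hz⟩).symm⟩

/-- the element of the algebra given by a function -/
def mk (F : ℂ → ℂ) (hF : NV F) : Nevanlinna :=
  ⟨fun z => F z, F, hF.1, fun _ => rfl, hF.2.choose, fun r h0 h1 => hF.2.choose_spec r ⟨h0, h1⟩⟩

theorem mk_apply (F : ℂ → ℂ) (hF : NV F) (z : ball (0 : ℂ) 1) :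
    (mk F hF : ball (0 : ℂ) 1 → ℂ) z = F z := rfl

/-- The stable rank of the Nevanlinna class is `2`: the least `n ≥ 1` such that every unimodular
`(n+1)`-tuple is reducible is `2`. -/
theorem result : IsLeast {n : ℕ | 1 ≤ n ∧
    ∀ f : Fin (n + 1) → Nevanlinna, Unimodular f → Reducible f} 2 := by
  constructor
  · refine ⟨by norm_num, fun f hf => ?_⟩
    rw [unimodular_iff] at hf
    obtain ⟨g, hg⟩ := hf
    choose F hF hF' using fun i => exists_ext (f i)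
    choose G hG hG' using fun i => exists_ext (g i)
    have h1 : ∀ z ∈ ball (0 : ℂ) 1, G 0 z * F 0 z + G 1 z * F 1 z + G 2 z * F 2 z = 1 := by
      intro z hz
      have h2 := congrArg (fun x : Nevanlinna => (x : ball (0 : ℂ) 1 → ℂ) ⟨z, hz⟩) hg
      rw [Fin.sum_univ_three] at h2
      rw [← hG' 0 z hz, ← hG' 1 z hz, ← hG' 2 z hz, ← hF' 0 z hz, ← hF' 1 z hz, ← hF' 2 z hz]
      exact h2
    obtain ⟨h₁, h₂, G₁, G₂, n1, n2, n3, n4, h2⟩ := Pool.Agent.W775.SR.triple (hF 0) (hF 1) (hF 2)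
      (hG 0) (hG 1) (hG 2) h1
    refine ⟨![mk h₁ n1, mk h₂ n2], ?_⟩
    rw [unimodular_iff]
    refine ⟨![mk G₁ n3, mk G₂ n4], ?_⟩
    rw [Fin.sum_univ_two]
    apply Subtype.ext
    funext z
    obtain ⟨z, hz⟩ := z
    show G₁ z * ((f 0 : ball (0 : ℂ) 1 → ℂ) ⟨z, hz⟩ + h₁ z * (f 2 : ball (0 : ℂ) 1 → ℂ) ⟨z, hz⟩) +
      G₂ z * ((f 1 : ball (0 : ℂ) 1 → ℂ) ⟨z, hz⟩ + h₂ z * (f 2 : ball (0 : ℂ) 1 → ℂ) ⟨z, hz⟩) = 1
    rw [hF' 0 z hz, hF' 1 z hz, hF' 2 z hz]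
    exact h2 z hz
  · rintro n ⟨hn, h⟩
    by_contra hlt
    have hn1 : n = 1 := by omega
    subst hn1
    obtain ⟨g₁, g₂, hg₁, hg₂, hg⟩ := Pool.Agent.W775.SR.s_unimod
    have h1 := h ![mk _ Pool.Agent.W775.SR.s1_NV, mk _ Pool.Agent.W775.SR.s2_NV] (by
      rw [unimodular_iff]
      refine ⟨![mk g₁ hg₁, mk g₂ hg₂], ?_⟩
      rw [Fin.sum_univ_two]
      apply Subtype.ext
      funext z
      exact hg z z.2)
    obtain ⟨k, hk⟩ := h1
    rw [unimodular_iff] at hk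
    obtain ⟨c, hc⟩ := hk
    obtain ⟨K, hK, hK'⟩ := exists_ext (k 0)
    obtain ⟨C, hC, hC'⟩ := exists_ext (c 0)
    have hu : NV (fun z => Pool.Agent.W775.SR.s1 z + K z * Pool.Agent.W775.SR.s2 z) :=
      Pool.Agent.W775.SR.s1_NV.add (hK.mul Pool.Agent.W775.SR.s2_NV)
    refine Pool.Agent.W775.SR.not_red hK hu hC (fun z _ => rfl) fun z hz => ?_
    have h2 := congrArg (fun x : Nevanlinna => (x : ball (0 : ℂ) 1 → ℂ) ⟨z, hz⟩) hc
    rw [Fin.sum_univ_one] at h2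
    rw [← hC' z hz, ← hK' z hz, mul_comm]
    exact h2

end Pool.Agent.Results.MP_6e0919_an.StableRankTwo
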